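import Pool.Agent.PakD

set_option autoImplicit false
set_option linter.unusedSectionVars false

namespace Pool.Agent.Results.MP_ee50b4_pr.CyclePeresFails

open Filter Topology Finset

/-- Convolution powers `μ^{*t}` on `ℤ/n`. -/
noncomputable def conv {n : ℕ} [NeZero n] (μ : ZMod n → ℝ) : ℕ → ZMod n → ℝ
  | 0 => fun x => if x = 0 then 1 else 0
  | t + 1 => fun x => ∑ y, conv μ t y * μ (x - y)

/-- `‖μ^{*t} - π‖_TV`, `π` uniform -/
noncomputable def tvdist {n : ℕ} [NeZero n] (μ : ZMod n → ℝ) (t : ℕ) : ℝ :=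
  (1 / 2) * ∑ x, |conv μ t x - 1 / (n : ℝ)|

/-- `T_mix(ε) = min {t : ‖μ^{*t} - π‖_TV ≤ ε}` -/
noncomputable def tmix {n : ℕ} [NeZero n] (μ : ZMod n → ℝ) (ε : ℝ) : ℕ :=
  sInf {t : ℕ | tvdist μ t ≤ ε}

/-- the eigenvalues `∑ₓ μ(x) e^{2π i j x / n}` -/
noncomputable def hat {n : ℕ} [NeZero n] (μ : ZMod n → ℝ) (j : ZMod n) : ℂ :=
  ∑ x, (μ x : ℂ) * Complex.exp (2 * Real.pi * Complex.I * (j.val * x.val) / n)

/-- spectral gap `γ = 1 - max_{j ≠ 0} |μ̂(j)|` -/
noncomputable def gap {n : ℕ} [NeZero n] (μ : ZMod n → ℝ) : ℝ :=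
  1 - sSup {l : ℝ | ∃ j : ZMod n, j ≠ 0 ∧ l = ‖hat μ j‖}

/-- `T_rel = 1 / γ` -/
noncomputable def trel {n : ℕ} [NeZero n] (μ : ZMod n → ℝ) : ℝ := 1 / gap μ

/-- The support of `μ` is not contained in any coset of a proper subgroup. -/
def Ergodic {n : ℕ} (μ : ZMod n → ℝ) : Prop :=
  ∀ (H : AddSubgroup (ZMod n)) (a : ZMod n), (∀ x, 0 < μ x → x - a ∈ H) → H = ⊤

/-- Total variation cutoff for a sequence of convolution walks. -/
def Cutoff (n : ℕ → ℕ) [∀ k, NeZero (n k)] (μ : ∀ k, ZMod (n k) → ℝ) : Prop :=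
  ∀ ε : ℝ, 0 < ε → ε < 1 / 2 →
    Tendsto (fun k => (tmix (μ k) ε : ℝ) / tmix (μ k) (1 - ε)) atTop (𝓝 1)

lemma conv_eq {n : ℕ} [NeZero n] (μ : ZMod n → ℝ) (t : ℕ) : conv μ t = Pak.cv μ t := by
  induction t with
  | zero => rfl
  | succ t ih =>
    funext x
    show ∑ y, conv μ t y * μ (x - y) = ∑ y, Pak.cv μ t y * μ (x - y)
    rw [ih]

lemma tvdist_eq {n : ℕ} (π : Pak.Params n) (t : ℕ) : tvdist (Pak.mu π) t = Pak.tv π t 0 := by
  unfold tvdist
  rw [conv_eq]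
  exact Pak.cv_tv π t

lemma tmix_eq {n : ℕ} (π : Pak.Params n) (ε : ℝ) :
    tmix (Pak.mu π) ε = Pak.tm (fun t => Pak.tv π t 0) ε := by
  unfold tmix Pak.tm
  simp_rw [tvdist_eq]

lemma gap_ge {n : ℕ} (π : Pak.Params n) (hn : 1 ≤ n) : 1 / 6 ≤ gap (Pak.mu π) := by
  unfold gap
  have : sSup {l : ℝ | ∃ j : ZMod (Pak.NN π), j ≠ 0 ∧ l = ‖hat (Pak.mu π) j‖} ≤ 5 / 6 := by
    apply Real.sSup_le _ (by norm_num)
    rintro l ⟨j, hj, rfl⟩
    exact Pak.mu_char π hn j hj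
  linarith

/-- **Main theorem.** The equivalence between `T_rel/T_mix(1/2) → 0` and total variation cutoff fails
for ergodic convolution walks on cycles. -/
theorem result :
    ¬ (∀ (n : ℕ → ℕ) [∀ k, NeZero (n k)] (μ : ∀ k, ZMod (n k) → ℝ),
        (∀ k, 2 ≤ n k) → Tendsto n atTop atTop →
        (∀ k x, 0 ≤ μ k x) → (∀ k, ∑ x, μ k x = 1) →
        (∀ k, Ergodic (μ k)) →
        (Tendsto (fun k => trel (μ k) / (tmix (μ k) (1 / 2) : ℝ)) atTop (𝓝 0) ↔ Cutoff n μ)) := by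
  intro H
  have h100 : ∀ n : ℕ, 100 ≤ n + 100 := fun n => by omega
  have h1 : ∀ n : ℕ, 1 ≤ n + 100 := fun n => by omega
  have hlow : ∀ n : ℕ, ∀ t ≤ n + 100, 27 / 40 ≤ Pak.tv (Pak.par n) t 0 :=
    fun n t ht => Pak.tv_lower (Pak.par n) (by omega) t ht 0
  have hup : ∀ n : ℕ, ∀ t, Pak.tv (Pak.par n) t 0 ≤
      (1 - Pak.bet (Pak.par n)) ^ t + 4 * Pak.bet (Pak.par n) :=
    fun n t => Pak.tv_upper (Pak.par n) (h1 n) t 0
  have hiff := H (fun n => Pak.NN (Pak.par n)) (fun n => Pak.mu (Pak.par n))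
    (fun n => by have := Pak.NN_ge (Pak.par n); omega)
    (by
      apply tendsto_atTop_mono (fun n => Pak.NN_ge (Pak.par n))
      exact tendsto_atTop_mono (fun n => Nat.le_add_right n 100) tendsto_id)
    (fun n => Pak.mu_nonneg _) (fun n => Pak.mu_sum _)
    (fun n K a hK => by
      have h0 : (0 : ZMod (Pak.NN (Pak.par n))) - a ∈ K :=
        hK 0 (by rw [Pak.mu_zero]; norm_num)
      apply Pak.mu_closure
      intro x hx
      have h3 := K.sub_mem (hK x hx) h0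
      simpa using h3)
  have hcut := hiff.1 (by
      have hT : ∀ n : ℕ, (n : ℝ) + 1 ≤ (tmix (Pak.mu (Pak.par n)) (1 / 2) : ℝ) := by
        intro n
        rw [tmix_eq]
        have h4 := Pak.tm_lower (ε := 1 / 2) (h100 n) (Pak.bet_pos (Pak.par n))
          (Pak.bet_le (Pak.par n) (h1 n)) (hlow n) (hup n) (by norm_num) (by norm_num)
        have : n + 1 ≤ Pak.tm (fun t => Pak.tv (Pak.par n) t 0) (1 / 2) := by omega
        exact_mod_cast this
      have hlim : Tendsto (fun n : ℕ => 6 * (1 / ((n : ℝ) + 1))) atTop (𝓝 (6 * 0)) :=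
        tendsto_one_div_add_atTop_nhds_zero_nat.const_mul 6
      rw [mul_zero] at hlim
      refine squeeze_zero (fun n => ?_) (fun n => ?_) hlim
      · have h5 := gap_ge (Pak.par n) (h1 n)
        have h6 : 0 < gap (Pak.mu (Pak.par n)) := by linarith
        unfold trel
        positivity
      · have h5 := gap_ge (Pak.par n) (h1 n)
        have h7 : trel (Pak.mu (Pak.par n)) ≤ 6 := by
          unfold trel
          rw [div_le_iff₀ (by linarith)]
          linarith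
        rw [mul_one_div]
        exact div_le_div₀ (by norm_num) h7 (by positivity) (hT n))
  have h2 := hcut (1 / 50) (by norm_num) (by norm_num)
  simp_rw [tmix_eq] at h2
  have e : (1 : ℝ) - 1 / 50 = 49 / 50 := by norm_num
  rw [e] at h2
  refine Pak.not_tendsto_ratio _ _ (fun n => n + 100) (fun n => ⟨?_, ?_⟩) h2
  · exact Pak.tm_lower (h100 n) (Pak.bet_pos (Pak.par n))
      (Pak.bet_le (Pak.par n) (h1 n)) (hlow n) (hup n) (by norm_num) (by norm_num)
  · exact Pak.tm_upper (h100 n) (Pak.bet_le (Pak.par n) (h1 n)) (Pak.bet_ge (Pak.par n)) (hup n)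

end Pool.Agent.Results.MP_ee50b4_pr.CyclePeresFails
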